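import Mathlib

/-!
Tame subsets of `ℤ^ι` for finitely many irrational numbers `θ j`: unions of classes of an
equivalence relation given by a modulus and by the signs of finitely many rational linear
combinations of `1` and the functions `x ↦ fract (q(x) θ j)`, `q` a rational affine form.
-/

set_option autoImplicit false

namespace Pool.Agent.R612.CO

open SignType

/-- rational affine forms -/
def IsForm {ι : Type} [Fintype ι] (q : (ι → ℚ) → ℚ) : Prop :=
  ∃ (c : ι → ℚ) (c0 : ℚ), ∀ x, q x = ∑ i, c i * x i + c0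

/-- the rational linear combinations of `1` and of the fractional parts of `q(x) θ` -/
noncomputable def GG (θ : ℝ) (ι : Type) [Fintype ι] : Submodule ℚ ((ι → ℚ) → ℝ) :=
  Submodule.span ℚ ({fun _ => (1 : ℝ)} ∪
    {f | ∃ q : (ι → ℚ) → ℚ, IsForm q ∧ f = fun x => Int.fract ((q x : ℝ) * θ)})

section forms

variable {ι κ : Type} [Fintype ι] [Fintype κ]

theorem IsForm.comp_map {q : (ι → ℚ) → ℚ} (hq : IsForm q) {p : (κ → ℚ) → (ι → ℚ)}
    (hp : ∀ i, IsForm fun y => p y i) : IsForm fun y => q (p y) := by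
  classical
  obtain ⟨c, c0, h⟩ := hq
  choose d d0 hd using hp
  refine ⟨fun k => ∑ i, c i * d i k, ∑ i, c i * d0 i + c0, fun y => ?_⟩
  simp only [h, hd]
  simp only [Finset.sum_mul, mul_add, Finset.sum_add_distrib, Finset.mul_sum]
  rw [Finset.sum_comm]
  simp only [mul_assoc]
  ring

theorem isForm_var (i : ι) : IsForm fun x : ι → ℚ => x i := by
  classical
  refine ⟨fun k => if k = i then 1 else 0, 0, fun x => ?_⟩
  simp

theorem isForm_const (c : ℚ) : IsForm fun _ : ι → ℚ => c :=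
  ⟨0, c, fun x => by simp⟩

theorem IsForm.add {p q : (ι → ℚ) → ℚ} (hp : IsForm p) (hq : IsForm q) :
    IsForm fun x => p x + q x := by
  obtain ⟨c, c0, h⟩ := hp
  obtain ⟨d, d0, h'⟩ := hq
  refine ⟨c + d, c0 + d0, fun x => ?_⟩
  simp only [h, h', Pi.add_apply, add_mul, Finset.sum_add_distrib]
  ring

theorem IsForm.smul {p : (ι → ℚ) → ℚ} (hp : IsForm p) (a : ℚ) : IsForm fun x => a * p x := by
  obtain ⟨c, c0, h⟩ := hp
  refine ⟨fun i => a * c i, a * c0, fun x => ?_⟩
  simp only [h, mul_add, Finset.mul_sum, mul_assoc]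

/-- the difference of the values of a form at congruent integer points is an integer -/
theorem IsForm.exists_modulus {q : (ι → ℚ) → ℚ} (hq : IsForm q) :
    ∃ m : ℕ, 0 < m ∧ ∀ x x' : ι → ℤ, (∀ i, (m : ℤ) ∣ x i - x' i) →
      ∃ z : ℤ, q (fun i => (x i : ℚ)) - q (fun i => (x' i : ℚ)) = z := by
  classical
  obtain ⟨c, c0, h⟩ := hq
  refine ⟨∏ i, (c i).den, Finset.prod_pos fun i _ => (c i).den_pos, fun x x' hx => ?_⟩
  have h1 : ∀ i, ∃ z : ℤ, c i * x i - c i * x' i = z := by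
    intro i
    obtain ⟨k, hk⟩ := (Int.natCast_dvd_natCast.2 (Finset.dvd_prod_of_mem (fun i => (c i).den)
      (Finset.mem_univ i))).trans (hx i)
    refine ⟨(c i).num * k, ?_⟩
    rw [← mul_sub]
    have h2 : ((x i : ℚ) - x' i) = (c i).den * k := by exact_mod_cast hk
    rw [h2, ← mul_assoc, Rat.mul_den_eq_num]
    push_cast
    ring
  choose z hz using h1
  refine ⟨∑ i, z i, ?_⟩
  rw [h, h]
  push_cast
  rw [← Finset.sum_congr rfl fun i _ => hz i, Finset.sum_sub_distrib]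
  ring

end forms

section GG

variable {θ : ℝ} {ι κ : Type} [Fintype ι] [Fintype κ]

theorem fract_mem {q : (ι → ℚ) → ℚ} (hq : IsForm q) :
    (fun x => Int.fract ((q x : ℝ) * θ)) ∈ GG θ ι :=
  Submodule.subset_span (Or.inr ⟨q, hq, rfl⟩)

theorem one_mem : (fun _ => (1 : ℝ)) ∈ GG θ ι := Submodule.subset_span (Or.inl rfl)

theorem const_mem (c : ℚ) : (fun _ => (c : ℝ)) ∈ GG θ ι := by
  have h := (GG θ ι).smul_mem c one_mem
  convert h using 1
  ext x
  simp [Rat.smul_def]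

theorem comp_mem {g : (ι → ℚ) → ℝ} (hg : g ∈ GG θ ι) {p : (κ → ℚ) → (ι → ℚ)}
    (hp : ∀ i, IsForm fun y => p y i) : (fun y => g (p y)) ∈ GG θ κ := by
  induction hg using Submodule.span_induction with
  | mem g hg =>
    rcases hg with rfl | ⟨q, hq, rfl⟩
    · exact one_mem
    · exact fract_mem (hq.comp_map hp)
  | zero => exact (GG θ κ).zero_mem
  | add f g _ _ hf hg => exact (GG θ κ).add_mem hf hg
  | smul a f _ hf => exact (GG θ κ).smul_mem a hf

/-- the elements of `GG` are of the form `w(x) θ + rational` -/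
theorem exists_form {g : (ι → ℚ) → ℝ} (hg : g ∈ GG θ ι) :
    ∃ w : (ι → ℚ) → ℚ, IsForm w ∧ ∀ x, ∃ z : ℚ, g x = w x * θ + z := by
  induction hg using Submodule.span_induction with
  | mem g hg =>
    rcases hg with rfl | ⟨q, hq, rfl⟩
    · exact ⟨fun _ => 0, isForm_const 0, fun x => ⟨1, by simp⟩⟩
    · refine ⟨q, hq, fun x => ⟨-⌊(q x : ℝ) * θ⌋, ?_⟩⟩
      simp only [Int.fract]
      push_cast
      ring
  | zero => exact ⟨fun _ => 0, isForm_const 0, fun x => ⟨0, by simp⟩⟩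
  | add f g _ _ hf hg =>
    obtain ⟨w, hw, h⟩ := hf
    obtain ⟨w', hw', h'⟩ := hg
    refine ⟨fun x => w x + w' x, hw.add hw', fun x => ?_⟩
    obtain ⟨z, hz⟩ := h x
    obtain ⟨z', hz'⟩ := h' x
    refine ⟨z + z', ?_⟩
    rw [Pi.add_apply, hz, hz']
    push_cast
    ring
  | smul a f _ hf =>
    obtain ⟨w, hw, h⟩ := hf
    refine ⟨fun x => a * w x, hw.smul a, fun x => ?_⟩
    obtain ⟨z, hz⟩ := h x
    refine ⟨a * z, ?_⟩
    rw [Pi.smul_apply, hz, Rat.smul_def]
    push_cast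
    ring

end GG

/-- the tuple with the coordinate `x` at `none` -/
def cons {ι : Type} {K : Type} (x : K) (y : ι → K) : Option ι → K := fun o => o.elim x y

@[simp] theorem cons_none {ι K : Type} (x : K) (y : ι → K) : cons x y none = x := rfl
@[simp] theorem cons_some {ι K : Type} (x : K) (y : ι → K) (i : ι) : cons x y (some i) = y i := rfl

/-! ### Decomposition -/

/-- the values of `g` at `(M z + r, y)` as a function of `fract (z θ)` and of `y` -/
structure DecAt (θ : ℝ) {ι : Type} [Fintype ι] (g : (Option ι → ℚ) → ℝ) (M : ℕ) (r : ℤ)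
    (K : ℚ) (c : (ι → ℚ) → ℝ) (A : Set (ℚ × ((ι → ℚ) → ℝ))) (T : Set ℚ)
    (t : ℝ → (ι → ℚ) → ℚ) : Prop where
  c_mem : c ∈ GG θ ι
  A_fin : A.Finite
  A_mem : ∀ a ∈ A, a.2 ∈ GG θ ι
  T_fin : T.Finite
  t_mem : ∀ ξ : ℝ, 0 ≤ ξ → ξ < 1 → ∀ y, t ξ y ∈ T
  t_eq : ∀ ξ ξ' : ℝ, 0 ≤ ξ → ξ < 1 → 0 ≤ ξ' → ξ' < 1 → ∀ y y',
    (∀ a ∈ A, sign ((a.1 : ℝ) * ξ + a.2 y) = sign ((a.1 : ℝ) * ξ' + a.2 y')) → t ξ y = t ξ' y'
  eq : ∀ (z : ℤ) y, g (cons (M * z + r : ℚ) y) =
    K * Int.fract (z * θ) + c y - t (Int.fract (z * θ)) y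

/-- every `g` in `GG` has decompositions for all multiples `M` of some `M₀` -/
theorem exists_dec {θ : ℝ} {ι : Type} [Fintype ι] {g : (Option ι → ℚ) → ℝ}
    (hg : g ∈ GG θ (Option ι)) : ∃ M₀ : ℕ, 0 < M₀ ∧ ∀ M : ℕ, M₀ ∣ M → ∀ r : ℤ,
      ∃ K c A T t, DecAt θ g M r K c A T t := by
  classical
  induction hg using Submodule.span_induction with
  | mem g hg =>
    rcases hg with rfl | ⟨q, hq, rfl⟩
    · refine ⟨1, one_pos, fun M _ r => ⟨0, fun _ => 1, ∅, {0}, fun _ _ => 0, ?_⟩⟩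
      exact ⟨one_mem, Set.finite_empty, by simp, Set.finite_singleton _, by simp, by simp,
        by simp⟩
    · obtain ⟨c, c0, h⟩ := id hq
      refine ⟨(c none).den, (c none).den_pos, fun M hM r => ?_⟩
      obtain ⟨m, rfl⟩ := hM
      -- the integer coefficient
      set k : ℤ := (c none).num * m with hk
      have hk' : c none * (((c none).den * m : ℕ) : ℚ) = k := by
        push_cast
        rw [← mul_assoc, Rat.mul_den_eq_num]
        push_cast [hk]
        ring
      set l : (ι → ℚ) → ℚ := fun y => q (cons (r : ℚ) y) with hl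
      have hlf : IsForm l := by
        refine hq.comp_map fun i => ?_
        rcases i with _ | i
        · exact isForm_const _
        · exact isForm_var i
      set σ : (ι → ℚ) → ℝ := fun y => Int.fract ((l y : ℝ) * θ) with hσ
      have hσm : σ ∈ GG θ ι := fract_mem hlf
      have hσ0 : ∀ y, 0 ≤ σ y := fun y => Int.fract_nonneg _
      have hσ1 : ∀ y, σ y < 1 := fun y => Int.fract_lt_one _
      have hrange : ∀ ξ : ℝ, 0 ≤ ξ → ξ < 1 → ∀ y,
          -|k| - 1 ≤ ⌊(k : ℝ) * ξ + σ y⌋ ∧ ⌊(k : ℝ) * ξ + σ y⌋ ≤ |k| + 1 := by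
        intro ξ h0 h1 y
        have h3 : |(k : ℝ) * ξ| ≤ |(k : ℝ)| := by
          rw [abs_mul, abs_of_nonneg h0]
          exact mul_le_of_le_one_right (abs_nonneg _) h1.le
        have h4 := abs_le.1 h3
        constructor
        · rw [Int.le_floor]
          push_cast
          linarith [hσ0 y]
        · have h5 : (⌊(k : ℝ) * ξ + σ y⌋ : ℝ) ≤ |(k : ℝ)| + 1 :=
            (Int.floor_le _).trans (by linarith [hσ1 y])
          exact_mod_cast h5
      refine ⟨k, σ, (fun m : ℤ => ((k : ℚ), fun y => σ y - m)) '' Set.Icc (-|k| - 1) (|k| + 2),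
        (fun m : ℤ => (m : ℚ)) '' Set.Icc (-|k| - 1) (|k| + 1),
        fun ξ y => ⌊(k : ℝ) * ξ + σ y⌋, ?_⟩
      refine ⟨hσm, (Set.finite_Icc _ _).image _, ?_, (Set.finite_Icc _ _).image _, ?_, ?_, ?_⟩
      · rintro _ ⟨m, _, rfl⟩
        have := (GG θ ι).sub_mem hσm (const_mem (θ := θ) (ι := ι) (m : ℚ))
        convert this using 1
        ext y
        simp
      · intro ξ h0 h1 y
        exact ⟨_, hrange ξ h0 h1 y, rfl⟩
      · intro ξ ξ' h0 h1 h0' h1' y y' hs
        have hr := hrange ξ h0 h1 y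
        set m := ⌊(k : ℝ) * ξ + σ y⌋ with hm
        have e1 := hs ((k : ℚ), fun y => σ y - m) ⟨m, ⟨hr.1, by omega⟩, rfl⟩
        have e2 := hs ((k : ℚ), fun y => σ y - ((m + 1 : ℤ) : ℝ)) ⟨m + 1, ⟨by omega, by omega⟩, rfl⟩
        simp only [Rat.cast_intCast] at e1 e2
        have f1 : 0 ≤ (k : ℝ) * ξ + (σ y - m) := by
          have := Int.floor_le ((k : ℝ) * ξ + σ y)
          rw [← hm] at this
          linarith
        have f2 : (k : ℝ) * ξ + (σ y - ((m + 1 : ℤ) : ℝ)) < 0 := by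
          have := Int.lt_floor_add_one ((k : ℝ) * ξ + σ y)
          rw [← hm] at this
          push_cast
          linarith
        have g1 : 0 ≤ (k : ℝ) * ξ' + (σ y' - m) := by
          by_contra hc
          push Not at hc
          rw [sign_neg hc] at e1
          have : (0 : SignType) ≤ -1 := by
            rw [← e1]
            exact sign_nonneg_iff.2 f1
          exact absurd this (by decide)
        have g2 : (k : ℝ) * ξ' + (σ y' - ((m + 1 : ℤ) : ℝ)) < 0 := by
          rw [sign_neg f2] at e2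
          exact sign_eq_neg_one_iff.1 e2.symm
        have : ⌊(k : ℝ) * ξ' + σ y'⌋ = m := by
          rw [Int.floor_eq_iff]
          push_cast at g2
          constructor <;> linarith
        rw [this]
      · intro z y
        have h1 : q (cons ((((c none).den * m : ℕ) : ℚ) * z + r : ℚ) y) = k * z + l y := by
          rw [hl, h]
          simp only
          rw [h, Fintype.sum_option, Fintype.sum_option]
          simp only [cons_none, cons_some]
          rw [← hk']
          ring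
        have h2 : ((q (cons ((((c none).den * m : ℕ) : ℚ) * z + r : ℚ) y) : ℚ) : ℝ) * θ =
            ((k : ℝ) * Int.fract (z * θ) + σ y) + ((k * ⌊(z : ℝ) * θ⌋ + ⌊(l y : ℝ) * θ⌋ : ℤ) : ℝ) := by
          rw [h1, hσ]
          simp only
          rw [Int.fract, Int.fract]
          push_cast
          ring
        show Int.fract (((q (cons ((((c none).den * m : ℕ) : ℚ) * z + r : ℚ) y) : ℚ) : ℝ) * θ) = _
        rw [h2, Int.fract_add_intCast, Int.fract]
        push_cast
        ring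
  | zero =>
    refine ⟨1, one_pos, fun M _ r => ⟨0, 0, ∅, {0}, fun _ _ => 0, ?_⟩⟩
    exact ⟨(GG θ ι).zero_mem, Set.finite_empty, by simp, Set.finite_singleton _, by simp, by simp,
      by simp⟩
  | add f g _ _ hf hg =>
    obtain ⟨M₁, h1, H1⟩ := hf
    obtain ⟨M₂, h2, H2⟩ := hg
    refine ⟨M₁ * M₂, Nat.mul_pos h1 h2, fun M hM r => ?_⟩
    obtain ⟨K, c, A, T, t, D⟩ := H1 M ((Dvd.intro _ rfl).trans hM) r
    obtain ⟨K', c', A', T', t', D'⟩ := H2 M ((Dvd.intro_left _ rfl).trans hM) r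
    refine ⟨K + K', c + c', A ∪ A', Set.image2 (· + ·) T T', fun ξ y => t ξ y + t' ξ y, ?_⟩
    refine ⟨(GG θ ι).add_mem D.c_mem D'.c_mem, D.A_fin.union D'.A_fin, ?_,
      D.T_fin.image2 _ D'.T_fin, ?_, ?_, ?_⟩
    · rintro a (ha | ha)
      · exact D.A_mem a ha
      · exact D'.A_mem a ha
    · intro ξ h0 h1 y
      exact ⟨_, D.t_mem ξ h0 h1 y, _, D'.t_mem ξ h0 h1 y, rfl⟩
    · intro ξ ξ' h0 h1 h0' h1' y y' hs
      show t ξ y + t' ξ y = t ξ' y' + t' ξ' y'
      rw [D.t_eq ξ ξ' h0 h1 h0' h1' y y' fun a ha => hs a (Or.inl ha),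
        D'.t_eq ξ ξ' h0 h1 h0' h1' y y' fun a ha => hs a (Or.inr ha)]
    · intro z y
      rw [Pi.add_apply, D.eq, D'.eq, Pi.add_apply]
      push_cast
      ring
  | smul a f _ hf =>
    obtain ⟨M₁, h1, H1⟩ := hf
    refine ⟨M₁, h1, fun M hM r => ?_⟩
    obtain ⟨K, c, A, T, t, D⟩ := H1 M hM r
    refine ⟨a * K, a • c, A, (fun s => a * s) '' T, fun ξ y => a * t ξ y, ?_⟩
    refine ⟨(GG θ ι).smul_mem a D.c_mem, D.A_fin, D.A_mem, D.T_fin.image _, ?_, ?_, ?_⟩
    · intro ξ h0 h1 y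
      exact ⟨_, D.t_mem ξ h0 h1 y, rfl⟩
    · intro ξ ξ' h0 h1 h0' h1' y y' hs
      show a * t ξ y = a * t ξ' y'
      rw [D.t_eq ξ ξ' h0 h1 h0' h1' y y' hs]
    · intro z y
      rw [Pi.smul_apply, D.eq, Pi.smul_apply, Rat.smul_def, Rat.smul_def]
      push_cast
      ring

end Pool.Agent.R612.CO
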