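import Pool.Agent.R612.CO.Kro

/-!
Definable sets of the integers with cyclic orders are tame.
-/

set_option autoImplicit false

namespace Pool.Agent.R612.CO

open SignType FirstOrder FirstOrder.Language

section

variable {J : Type} {θ : J → ℝ}

/-- Solutions of linear equations -/
theorem tame_eq {ι : Type} [Fintype ι] [Nonempty J] (hθ : ∀ j, Irrational (θ j))
    {p q : (ι → ℤ) → ℤ} (hp : IsIntForm p) (hq : IsIntForm q) : Tame θ {x | p x = q x} := by
  have hpq : IsIntForm fun x => p x + (-1) * q x := hp.add (hq.smul (-1))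
  obtain ⟨w, hw, h⟩ := hpq.toForm
  refine ⟨1, one_pos, fun j => {fun x => Int.fract ((w x : ℝ) * θ j)},
    fun j => Set.finite_singleton _, ?_, ?_⟩
  · rintro j g rfl
    exact fract_mem hw
  · rintro x x' ⟨_, hs⟩ hx
    obtain ⟨j⟩ := ‹Nonempty J›
    have h1 := hs j _ rfl
    rw [h, h] at h1
    have hx0 : p x = q x := hx
    have hx1 : p x + (-1) * q x = 0 := by linarith
    rw [hx1] at h1
    simp only [Int.cast_zero, Rat.cast_zero, zero_mul, Int.fract_zero, sign_zero] at h1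
    have h2 := sign_eq_zero_iff.1 h1.symm
    rw [Int.fract_eq_zero_iff] at h2
    obtain ⟨m, hm⟩ := h2
    show p x' = q x'
    by_contra hne
    have h3 : p x' + (-1) * q x' ≠ 0 := by
      intro h4
      exact hne (by linarith)
    have h4 : (((p x' + (-1) * q x' : ℤ) : ℚ) : ℝ) ≠ 0 := by exact_mod_cast h3
    refine hθ j ⟨(m : ℚ) / ((p x' + (-1) * q x' : ℤ) : ℚ), ?_⟩
    push_cast at h4 hm ⊢
    rw [div_eq_iff h4, hm]
    ring

/-- the cyclic order of the multiples of `β` -/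
def Cyc (β : ℝ) (a b c : ℤ) : Prop :=
  (Int.fract (a * β) < Int.fract (b * β) ∧ Int.fract (b * β) < Int.fract (c * β)) ∨
  (Int.fract (b * β) < Int.fract (c * β) ∧ Int.fract (c * β) < Int.fract (a * β)) ∨
  (Int.fract (c * β) < Int.fract (a * β) ∧ Int.fract (a * β) < Int.fract (b * β))

theorem sign_eq_lt {a b a' b' : ℝ} (h : sign (a - b) = sign (a' - b')) : a < b → a' < b' := by
  intro hab
  rw [sign_neg (sub_neg.2 hab)] at h
  exact sub_neg.1 (sign_eq_neg_one_iff.1 h.symm)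

/-- fractional parts of multiples of `c0 + c1 θ` -/
theorem fract_formula (θ : ℝ) (c0 c1 : ℚ) (a : ℤ) : ∃ e : ℤ, 0 ≤ e ∧ e ≤ 1 ∧
    (e = 1 ↔ 0 ≤ Int.fract (((c1 * a : ℚ) : ℝ) * θ) +
      (((((a * c0.num) % c0.den : ℤ) : ℚ) / c0.den - 1 : ℚ) : ℝ)) ∧
    Int.fract ((a : ℝ) * (c0 + c1 * θ)) = Int.fract (((c1 * a : ℚ) : ℝ) * θ) +
      (((((a * c0.num) % c0.den : ℤ) : ℚ) / c0.den : ℚ) : ℝ) - e := by
  set φ := Int.fract (((c1 * a : ℚ) : ℝ) * θ) with hφ
  set r := (a * c0.num) % (c0.den : ℤ) with hr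
  have hden : (0 : ℤ) < c0.den := by exact_mod_cast c0.den_pos
  have hdenq : (c0.den : ℚ) ≠ 0 := by exact_mod_cast c0.den_pos.ne'
  have hr0 : 0 ≤ r := Int.emod_nonneg _ hden.ne'
  have hr1 : r < c0.den := Int.emod_lt_of_pos _ hden
  have hφ0 : 0 ≤ φ := Int.fract_nonneg _
  have hφ1 : φ < 1 := Int.fract_lt_one _
  set ρ : ℝ := (((r : ℚ) / c0.den : ℚ) : ℝ) with hρ
  have hρ0 : 0 ≤ ρ := by
    rw [hρ]
    have : (0 : ℚ) ≤ (r : ℚ) / c0.den := by positivity
    exact_mod_cast this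
  have hρ1 : ρ < 1 := by
    rw [hρ]
    have : (r : ℚ) / c0.den < 1 := by
      rw [div_lt_one (by positivity)]
      exact_mod_cast hr1
    exact_mod_cast this
  obtain ⟨k, hk⟩ : ∃ k : ℤ, (a : ℚ) * c0 = k + (r : ℚ) / c0.den := by
    refine ⟨(a * c0.num) / (c0.den : ℤ), ?_⟩
    have h2 : ((c0.den : ℤ) * ((a * c0.num) / (c0.den : ℤ)) + r : ℤ) = a * c0.num :=
      Int.mul_ediv_add_emod _ _
    have h3 : ((c0.den : ℚ) * (((a * c0.num) / (c0.den : ℤ) : ℤ) : ℚ) + (r : ℚ)) = a * c0.num := by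
      exact_mod_cast h2
    have h4 : (a : ℚ) * c0 = (a * c0.num) / c0.den := by
      rw [mul_div_assoc, Rat.num_div_den]
    rw [h4, ← h3]
    field_simp
  have hk' : (a : ℝ) * c0 = k + ρ := by
    rw [hρ]
    exact_mod_cast hk
  have hfl : 0 ≤ ⌊φ + ρ⌋ := Int.floor_nonneg.2 (by linarith)
  have hfl2 : ⌊φ + ρ⌋ < 2 := by
    rw [Int.floor_lt]
    push_cast
    linarith
  refine ⟨⌊φ + ρ⌋, hfl, by omega, ?_, ?_⟩
  · have e : φ + ((((r : ℚ) / c0.den - 1 : ℚ)) : ℝ) = φ + ρ - 1 := by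
      rw [hρ]
      push_cast
      ring
    rw [e]
    constructor
    · intro h
      have := Int.floor_le (φ + ρ)
      rw [h] at this
      push_cast at this
      linarith
    · intro h
      have : 1 ≤ ⌊φ + ρ⌋ := by
        rw [Int.le_floor]
        push_cast
        linarith
      omega
  · have e : (a : ℝ) * (c0 + c1 * θ) = (φ + ρ) + ((k + ⌊((c1 * a : ℚ) : ℝ) * θ⌋ : ℤ) : ℝ) := by
      rw [mul_add, hk', hφ, Int.fract]
      push_cast
      ring
    rw [e, Int.fract_add_intCast]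
    rfl

theorem cyc_congr {β β' : ℝ} {a b c a' b' c' : ℤ}
    (h1 : sign (Int.fract (a * β) - Int.fract (b * β)) =
      sign (Int.fract (a' * β') - Int.fract (b' * β')))
    (h2 : sign (Int.fract (b * β) - Int.fract (c * β)) =
      sign (Int.fract (b' * β') - Int.fract (c' * β')))
    (h3 : sign (Int.fract (c * β) - Int.fract (a * β)) =
      sign (Int.fract (c' * β') - Int.fract (a' * β')))
    (h : Cyc β a b c) : Cyc β' a' b' c' := by
  rcases h with ⟨h4, h5⟩ | ⟨h4, h5⟩ | ⟨h4, h5⟩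
  · exact Or.inl ⟨sign_eq_lt h1 h4, sign_eq_lt h2 h5⟩
  · exact Or.inr (Or.inl ⟨sign_eq_lt h2 h4, sign_eq_lt h3 h5⟩)
  · exact Or.inr (Or.inr ⟨sign_eq_lt h3 h4, sign_eq_lt h1 h5⟩)

/-- the cyclic order of the multiples of `c0 + c1 θ j₀` is tame -/
theorem tame_cyc (j₀ : J) (c0 c1 : ℚ) {β : ℝ} (hβ : β = c0 + c1 * θ j₀) :
    Tame θ {x : Fin 3 → ℤ | Cyc β (x 0) (x 1) (x 2)} := by
  set N := c0.den with hN
  have hNpos : 0 < N := c0.den_pos
  have hNq : (N : ℚ) ≠ 0 := by exact_mod_cast hNpos.ne'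
  refine ⟨N, hNpos, fun j =>
    (Set.image2 (fun (a : Fin 3) (i : ℤ) => fun x : Fin 3 → ℚ =>
      Int.fract (((c1 * x a : ℚ) : ℝ) * θ j) + (((i : ℚ) / N - 1 : ℚ) : ℝ))
      Set.univ (Set.Icc 0 (N : ℤ))) ∪
    (Set.image2 (fun (a : Fin 3 × Fin 3) (i : ℤ) => fun x : Fin 3 → ℚ =>
      Int.fract (((c1 * x a.1 : ℚ) : ℝ) * θ j) - Int.fract (((c1 * x a.2 : ℚ) : ℝ) * θ j) +
        (((i : ℚ) / N : ℚ) : ℝ))
      Set.univ (Set.Icc (-3 * N : ℤ) (3 * N : ℤ))), ?_, ?_, ?_⟩
  · intro j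
    exact (Set.finite_univ.image2 _ (Set.finite_Icc _ _)).union
      (Set.finite_univ.image2 _ (Set.finite_Icc _ _))
  · rintro j g (⟨a, _, i, _, rfl⟩ | ⟨a, _, i, _, rfl⟩)
    · exact (GG (θ j) _).add_mem (fract_mem ((isForm_var a).smul c1)) (const_mem _)
    · exact (GG (θ j) _).add_mem ((GG (θ j) _).sub_mem (fract_mem ((isForm_var a.1).smul c1))
        (fract_mem ((isForm_var a.2).smul c1))) (const_mem _)
  · rintro x x' ⟨hs1, hs2⟩ hx
    have hres : ∀ a : Fin 3, (x a * c0.num) % (N : ℤ) = (x' a * c0.num) % (N : ℤ) := by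
      intro a
      have h : x' a ≡ x a [ZMOD N] := Int.modEq_iff_dvd.2 (hs1 a)
      exact (h.symm.mul_right _)
    have hrange : ∀ a : Fin 3, 0 ≤ (x a * c0.num) % (N : ℤ) ∧ (x a * c0.num) % (N : ℤ) ≤ N :=
      fun a => ⟨Int.emod_nonneg _ (by exact_mod_cast hNpos.ne'),
        (Int.emod_lt_of_pos _ (by exact_mod_cast hNpos)).le⟩
    have hstep : ∀ a : Fin 3, ∃ e : ℤ, 0 ≤ e ∧ e ≤ 1 ∧
        Int.fract (x a * β) = Int.fract (((c1 * x a : ℚ) : ℝ) * θ j₀) +
          (((((x a * c0.num) % c0.den : ℤ) : ℚ) / c0.den : ℚ) : ℝ) - e ∧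
        Int.fract (x' a * β) = Int.fract (((c1 * x' a : ℚ) : ℝ) * θ j₀) +
          (((((x a * c0.num) % c0.den : ℤ) : ℚ) / c0.den : ℚ) : ℝ) - e := by
      intro a
      obtain ⟨e, he0, he1, he2, he3⟩ := fract_formula (θ j₀) c0 c1 (x a)
      obtain ⟨e', he0', he1', he2', he3'⟩ := fract_formula (θ j₀) c0 c1 (x' a)
      have h1 := hs2 j₀ _ (Or.inl ⟨a, Set.mem_univ _, (x a * c0.num) % (N : ℤ), hrange a, rfl⟩)
      rw [← hN] at he2 he3 he2' he3'
      rw [← hres a] at he2' he3'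
      have h2 : e = 1 ↔ e' = 1 := by
        simp only at h1
        rw [he2, he2']
        constructor
        · intro h
          exact sign_nonneg_iff.1 (h1 ▸ sign_nonneg_iff.2 h)
        · intro h
          exact sign_nonneg_iff.1 (h1.symm ▸ sign_nonneg_iff.2 h)
      have h3 : e = e' := by omega
      rw [hβ]
      exact ⟨e, he0, he1, he3, by rw [h3]; exact he3'⟩
    have key : ∀ a b : Fin 3, sign (Int.fract (x a * β) - Int.fract (x b * β)) =
        sign (Int.fract (x' a * β) - Int.fract (x' b * β)) := by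
      intro a b
      obtain ⟨e, he0, he1, he2, he3⟩ := hstep a
      obtain ⟨f, hf0, hf1, hf2, hf3⟩ := hstep b
      have ha := hrange a
      have hb := hrange b
      rw [← hN] at he2 he3 hf2 hf3
      have hNN : (0 : ℤ) < N := by exact_mod_cast hNpos
      have h1 := hs2 j₀ _ (Or.inr ⟨(a, b), Set.mem_univ _,
        (x a * c0.num) % (N : ℤ) - (x b * c0.num) % (N : ℤ) - N * (e - f),
        ⟨by nlinarith, by nlinarith⟩, rfl⟩)
      simp only at h1
      rw [he2, he3, hf2, hf3]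
      have e1 : ∀ s t : ℝ, s + (((((x a * c0.num) % N : ℤ) : ℚ) / N : ℚ) : ℝ) - e -
          (t + (((((x b * c0.num) % N : ℤ) : ℚ) / N : ℚ) : ℝ) - f) =
          s - t + ((((((x a * c0.num) % (N : ℤ) - (x b * c0.num) % (N : ℤ) - N * (e - f) : ℤ)) : ℚ)
            / N : ℚ) : ℝ) := by
        intro s t
        have hNr : (N : ℝ) ≠ 0 := by exact_mod_cast hNpos.ne'
        push_cast
        field_simp
        ring
      rw [e1, e1]
      exact h1
    exact cyc_congr (key 0 1) (key 1 2) (key 2 0) hx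

/-! ### Formulas -/

theorem IsIntForm.comp {ι κ : Type} [Fintype ι] [Fintype κ] {q : (ι → ℤ) → ℤ} (hq : IsIntForm q)
    {p : ι → (κ → ℤ) → ℤ} (hp : ∀ i, IsIntForm (p i)) : IsIntForm fun y => q fun i => p i y := by
  classical
  obtain ⟨c, c0, h⟩ := hq
  choose d d0 hd using hp
  refine ⟨fun k => ∑ i, c i * d i k, ∑ i, c i * d0 i + c0, fun y => ?_⟩
  simp only [h, hd]
  simp only [Finset.sum_mul, mul_add, Finset.sum_add_distrib, Finset.mul_sum]
  rw [Finset.sum_comm]
  simp only [mul_assoc]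
  ring

theorem isIntForm_term {L : FirstOrder.Language.{0, 0}} [L.Structure ℤ]
    (hf : ∀ n (f : L.Functions n), IsIntForm fun x : Fin n → ℤ => Structure.funMap f x)
    {κ : Type} [Fintype κ] (t : L.Term κ) : IsIntForm fun x : κ → ℤ => t.realize x := by
  induction t with
  | var a => exact isIntForm_var a
  | func f ts ih => exact (hf _ f).comp ih

/-- **definable sets are tame** -/
theorem tame_formula [Finite J] [Nonempty J] (hθ : ∀ j, Irrational (θ j)) (hd : Dense θ)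
    {L : FirstOrder.Language.{0, 0}} [L.Structure ℤ]
    (hf : ∀ n (f : L.Functions n), IsIntForm fun x : Fin n → ℤ => Structure.funMap f x)
    (hr : ∀ n (r : L.Relations n), Tame θ {x : Fin n → ℤ | Structure.RelMap r x})
    {α : Type} [Fintype α] {n : ℕ} (φ : L.BoundedFormula α n) :
    Tame θ {x : α ⊕ Fin n → ℤ | φ.Realize (fun a => x (Sum.inl a)) fun i => x (Sum.inr i)} := by
  have hsum : ∀ {n : ℕ} (x : α ⊕ Fin n → ℤ),
      Sum.elim (fun a => x (Sum.inl a)) (fun i => x (Sum.inr i)) = x := by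
    intro n x
    funext s
    rcases s with s | s <;> rfl
  induction φ with
  | falsum => exact tame_empty
  | equal t₁ t₂ =>
    have := tame_eq (θ := θ) hθ (isIntForm_term hf t₁) (isIntForm_term hf t₂)
    convert this using 1
    ext x
    simp only [Set.mem_ofPred_eq]
    rw [show (fun a => x (Sum.inl a)) = fun a => x (Sum.inl a) from rfl]
    show t₁.realize _ = t₂.realize _ ↔ _
    rw [hsum]
  | rel R ts =>
    have := (hr _ R).preimage (p := fun x i => (ts i).realize x)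
      fun i => isIntForm_term hf (ts i)
    convert this using 1
    ext x
    show Structure.RelMap R (fun i => (ts i).realize _) ↔ Structure.RelMap R _
    rw [hsum]
  | imp f₁ f₂ h₁ h₂ =>
    have := h₁.compl.union h₂
    convert this using 1
    ext x
    exact imp_iff_not_or
  | @all n f h =>
    have h1 := h.compl.reindex (κ := Option (α ⊕ Fin n))
      (Sum.elim (fun a => some (Sum.inl a)) (Fin.lastCases none fun i => some (Sum.inr i)))
    have h2 := (h1.exists hθ hd).compl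
    convert h2 using 1
    ext x
    rw [Set.mem_compl_iff]
    show (∀ z : ℤ, f.Realize _ (Fin.snoc _ z)) ↔ ¬ ∃ z : ℤ, ¬ f.Realize _ _
    rw [not_exists]
    refine forall_congr' fun z => ?_
    rw [not_not]
    apply iff_of_eq
    congr 1
    funext i
    refine Fin.lastCases ?_ (fun i => ?_) i
    · simp
    · simp

end

end Pool.Agent.R612.CO
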