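import Pool.Agent.R612.CO.Fml

/-!
Tame relations do not have the independence property; transfer to all models.
-/

set_option autoImplicit false

namespace Pool.Agent.R612.CO

open SignType FirstOrder FirstOrder.Language

/-- relations determined by comparisons of functions of `x` with functions of `y` -/
def Cmp {X Y : Type} (R : X → Y → Prop) : Prop :=
  ∃ F : Set ((X → ℝ) × (Y → ℝ)), F.Finite ∧ ∀ x y x' y',
    (∀ p ∈ F, sign (p.1 x - p.2 y) = sign (p.1 x' - p.2 y')) → R x y → R x' y'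

theorem exists_growth (d : ℕ) : ∃ K : ℕ, (K + 1) ^ d < 2 ^ K := by
  have h := tendsto_pow_const_div_const_pow_of_one_lt d (one_lt_two : (1 : ℝ) < 2)
  have h2 := (h.eventually_lt_const (show (0 : ℝ) < 1 / 2 by norm_num)).and
    (Filter.eventually_ge_atTop 1)
  obtain ⟨n, hn, hn1⟩ := h2.exists
  obtain ⟨K, rfl⟩ : ∃ K, n = K + 1 := ⟨n - 1, by omega⟩
  refine ⟨K, ?_⟩
  rw [div_lt_iff₀ (by positivity), pow_succ] at hn
  have : ((K + 1 : ℕ) : ℝ) ^ d < 2 ^ K := by linarith
  exact_mod_cast this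

theorem Cmp.finite {X Y : Type} {R : X → Y → Prop} (h : Cmp R) :
    ∃ K : ℕ, ∀ a : Fin K → X, ¬ ∀ s : Set (Fin K), ∃ y, ∀ i, R (a i) y ↔ i ∈ s := by
  classical
  obtain ⟨F, hF, hR⟩ := h
  have := hF.fintype
  obtain ⟨K, hK⟩ := exists_growth (2 * Fintype.card F)
  refine ⟨K, fun a hs => ?_⟩
  choose b hb using hs
  let code : Y → (F → Fin (K + 1) × Fin (K + 1)) := fun y p =>
    (⟨(Finset.univ.filter fun i => p.1.1 (a i) < p.1.2 y).card,
      Nat.lt_succ_of_le ((Finset.card_filter_le _ _).trans (by simp))⟩,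
    ⟨(Finset.univ.filter fun i => p.1.1 (a i) ≤ p.1.2 y).card,
      Nat.lt_succ_of_le ((Finset.card_filter_le _ _).trans (by simp))⟩)
  have hmono : ∀ y y', code y = code y' → ∀ p : F, p.1.2 y ≤ p.1.2 y' → ∀ i,
      sign (p.1.1 (a i) - p.1.2 y) = sign (p.1.1 (a i) - p.1.2 y') := by
    intro y y' hc p hle i
    have h1 := congrFun hc p
    simp only [code, Prod.mk.injEq, Fin.mk.injEq] at h1
    have h2 := Finset.eq_of_subset_of_card_le
      (show (Finset.univ.filter fun i => p.1.1 (a i) < p.1.2 y) ⊆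
        (Finset.univ.filter fun i => p.1.1 (a i) < p.1.2 y') from fun i hi => by
          simp only [Finset.mem_filter, Finset.mem_univ, true_and] at hi ⊢
          exact hi.trans_le hle) h1.1.symm.le
    have h3 := Finset.eq_of_subset_of_card_le
      (show (Finset.univ.filter fun i => p.1.1 (a i) ≤ p.1.2 y) ⊆
        (Finset.univ.filter fun i => p.1.1 (a i) ≤ p.1.2 y') from fun i hi => by
          simp only [Finset.mem_filter, Finset.mem_univ, true_and] at hi ⊢
          exact hi.trans hle) h1.2.symm.le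
    have h4 : p.1.1 (a i) < p.1.2 y ↔ p.1.1 (a i) < p.1.2 y' := by
      have := Finset.ext_iff.1 h2 i
      simpa using this
    have h5 : p.1.1 (a i) ≤ p.1.2 y ↔ p.1.1 (a i) ≤ p.1.2 y' := by
      have := Finset.ext_iff.1 h3 i
      simpa using this
    rcases lt_trichotomy (p.1.1 (a i)) (p.1.2 y) with h | h | h
    · rw [sign_neg (sub_neg.2 h), sign_neg (sub_neg.2 (h4.1 h))]
    · have h6 : p.1.1 (a i) = p.1.2 y' := by
        refine le_antisymm (h5.1 h.le) (not_lt.1 fun h7 => ?_)
        exact absurd (h4.2 h7) (by rw [h]; exact lt_irrefl _)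
      rw [h, sub_self, ← h, h6, sub_self]
    · have h6 : p.1.2 y' < p.1.1 (a i) := not_le.1 fun h7 => absurd (h5.2 h7) (not_le.2 h)
      rw [sign_pos (sub_pos.2 h), sign_pos (sub_pos.2 h6)]
  have hmain : ∀ y y', code y = code y' → ∀ p : F, ∀ i,
      sign (p.1.1 (a i) - p.1.2 y) = sign (p.1.1 (a i) - p.1.2 y') := by
    intro y y' hc p i
    rcases le_total (p.1.2 y) (p.1.2 y') with h | h
    · exact hmono y y' hc p h i
    · exact (hmono y' y hc.symm p h i).symm
  have hinj : Function.Injective fun s : Set (Fin K) => code (b s) := by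
    intro s s' hss
    ext i
    rw [← hb s i, ← hb s' i]
    have h1 := hmain _ _ hss
    exact ⟨hR _ _ _ _ fun p hp => h1 ⟨p, hp⟩ i, hR _ _ _ _ fun p hp => (h1 ⟨p, hp⟩ i).symm⟩
  have hcard := Fintype.card_le_of_injective _ hinj
  rw [Fintype.card_set, Fintype.card_fin, Fintype.card_fun, Fintype.card_prod,
    Fintype.card_fin, ← pow_two, ← pow_mul] at hcard
  exact absurd hcard (not_le.2 hK)

/-- splitting the elements of `GG` on a sum of index types -/
theorem exists_split {θ : ℝ} {α β : Type} [Fintype α] [Fintype β] {g : (α ⊕ β → ℚ) → ℝ}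
    (hg : g ∈ GG θ (α ⊕ β)) : ∃ (F₀ : (α → ℤ) → ℝ) (G₀ : (β → ℤ) → ℝ) (T : Set ℚ)
      (t : (α → ℤ) → (β → ℤ) → ℚ) (P : Set (((α → ℤ) → ℝ) × ((β → ℤ) → ℝ))),
      T.Finite ∧ P.Finite ∧ (∀ x y, t x y ∈ T) ∧
      (∀ x y x' y', (∀ p ∈ P, sign (p.1 x - p.2 y) = sign (p.1 x' - p.2 y')) →
        t x y = t x' y') ∧
      ∀ x y, g (fun i => ((Sum.elim x y i : ℤ) : ℚ)) = F₀ x - G₀ y - t x y := by
  classical
  induction hg using Submodule.span_induction with
  | mem g hg =>
    rcases hg with rfl | ⟨q, hq, rfl⟩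
    · exact ⟨fun _ => 1, fun _ => 0, {0}, fun _ _ => 0, ∅, Set.finite_singleton _,
        Set.finite_empty, by simp, by simp, by simp⟩
    · obtain ⟨c, c0, h⟩ := hq
      set s : (α → ℤ) → ℝ := fun x =>
        Int.fract (((∑ i, c (Sum.inl i) * x i + c0 : ℚ) : ℝ) * θ) with hs
      set u : (β → ℤ) → ℝ := fun y => Int.fract (((∑ i, c (Sum.inr i) * y i : ℚ) : ℝ) * θ) with hu
      have hs0 : ∀ x, 0 ≤ s x := fun x => Int.fract_nonneg _
      have hs1 : ∀ x, s x < 1 := fun x => Int.fract_lt_one _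
      have hu0 : ∀ x, 0 ≤ u x := fun x => Int.fract_nonneg _
      have hu1 : ∀ x, u x < 1 := fun x => Int.fract_lt_one _
      have hfl : ∀ x y, ⌊s x + u y⌋ = 0 ∨ ⌊s x + u y⌋ = 1 := by
        intro x y
        have h1 : 0 ≤ ⌊s x + u y⌋ := Int.floor_nonneg.2 (by linarith [hs0 x, hu0 y])
        have h2 : ⌊s x + u y⌋ < 2 := by
          rw [Int.floor_lt]
          push_cast
          linarith [hs1 x, hu1 y]
        omega
      have hfl1 : ∀ x y, ⌊s x + u y⌋ = 1 ↔ 0 ≤ s x - 1 - - u y := by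
        intro x y
        constructor
        · intro h
          have := Int.floor_le (s x + u y)
          rw [h] at this
          push_cast at this
          linarith
        · intro h
          have : 1 ≤ ⌊s x + u y⌋ := by
            rw [Int.le_floor]
            push_cast
            linarith
          rcases hfl x y with h | h <;> omega
      refine ⟨s, fun y => - u y, {0, 1}, fun x y => ⌊s x + u y⌋, {(fun x => s x - 1, fun y => - u y)},
        Set.toFinite _, Set.finite_singleton _, ?_, ?_, ?_⟩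
      · intro x y
        rcases hfl x y with h | h
        · left
          simp [h]
        · right
          simp [h]
      · intro x y x' y' hxy
        have h1 := hxy _ rfl
        simp only at h1
        have h2 : ⌊s x + u y⌋ = 1 ↔ ⌊s x' + u y'⌋ = 1 := by
          rw [hfl1, hfl1]
          constructor
          · intro h
            exact sign_nonneg_iff.1 (h1 ▸ sign_nonneg_iff.2 h)
          · intro h
            exact sign_nonneg_iff.1 (h1.symm ▸ sign_nonneg_iff.2 h)
        have h3 : ⌊s x + u y⌋ = ⌊s x' + u y'⌋ := by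
          rcases hfl x y with h | h <;> rcases hfl x' y' with h' | h' <;> omega
        show ((⌊s x + u y⌋ : ℤ) : ℚ) = ((⌊s x' + u y'⌋ : ℤ) : ℚ)
        rw [h3]
      · intro x y
        have h1 : ((q fun i => ((Sum.elim x y i : ℤ) : ℚ) : ℚ) : ℝ) * θ = s x + u y +
            ((⌊((∑ i, c (Sum.inl i) * x i + c0 : ℚ) : ℝ) * θ⌋ +
              ⌊((∑ i, c (Sum.inr i) * y i : ℚ) : ℝ) * θ⌋ : ℤ) : ℝ) := by
          rw [h, Fintype.sum_sum_type, hs, hu]
          simp only [Sum.elim_inl, Sum.elim_inr, Int.fract]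
          push_cast
          ring
        show Int.fract (((q fun i => ((Sum.elim x y i : ℤ) : ℚ) : ℚ) : ℝ) * θ) = _
        rw [h1, Int.fract_add_intCast, Int.fract]
        push_cast
        ring
  | zero => exact ⟨fun _ => 0, fun _ => 0, {0}, fun _ _ => 0, ∅, Set.finite_singleton _,
        Set.finite_empty, by simp, by simp, by simp⟩
  | add f g _ _ hf hg =>
    obtain ⟨F₀, G₀, T, t, P, h1, h2, h3, h4, h5⟩ := hf
    obtain ⟨F₀', G₀', T', t', P', h1', h2', h3', h4', h5'⟩ := hg
    refine ⟨fun x => F₀ x + F₀' x, fun y => G₀ y + G₀' y, Set.image2 (· + ·) T T',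
      fun x y => t x y + t' x y, P ∪ P', h1.image2 _ h1', h2.union h2',
      fun x y => ⟨_, h3 x y, _, h3' x y, rfl⟩, fun x y x' y' hp => ?_, fun x y => ?_⟩
    · show t x y + t' x y = t x' y' + t' x' y'
      rw [h4 x y x' y' fun p hp' => hp p (Or.inl hp'),
        h4' x y x' y' fun p hp' => hp p (Or.inr hp')]
    · rw [Pi.add_apply, h5, h5']
      push_cast
      ring
  | smul a f _ hf =>
    obtain ⟨F₀, G₀, T, t, P, h1, h2, h3, h4, h5⟩ := hf
    refine ⟨fun x => a * F₀ x, fun y => a * G₀ y, (fun s => a * s) '' T,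
      fun x y => a * t x y, P, h1.image _, h2, fun x y => ⟨_, h3 x y, rfl⟩,
      fun x y x' y' hp => ?_, fun x y => ?_⟩
    · show a * t x y = a * t x' y'
      rw [h4 x y x' y' hp]
    · rw [Pi.smul_apply, h5, Rat.smul_def]
      push_cast
      ring

/-- tame relations are determined by comparisons -/
theorem Tame.cmp {J : Type} [Finite J] {θ : J → ℝ} {α β : Type} [Fintype α] [Fintype β]
    {S : Set (α ⊕ β → ℤ)} (hS : Tame θ S) :
    Cmp fun (x : α → ℤ) (y : β → ℤ) => Sum.elim x y ∈ S := by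
  classical
  obtain ⟨N, hN, E, hE1, hE2, hE3⟩ := hS
  have h : ∀ j g, g ∈ E j → ∃ P : Set (((α → ℤ) → ℝ) × ((β → ℤ) → ℝ)), P.Finite ∧
      ∀ x y x' y', (∀ p ∈ P, sign (p.1 x - p.2 y) = sign (p.1 x' - p.2 y')) →
        sign (g (fun i => ((Sum.elim x y i : ℤ) : ℚ))) =
          sign (g (fun i => ((Sum.elim x' y' i : ℤ) : ℚ))) := by
    intro j g hg
    obtain ⟨F₀, G₀, T, t, P, h1, h2, h3, h4, h5⟩ := exists_split (hE2 j g hg)
    refine ⟨P ∪ (fun τ : ℚ => (fun x => F₀ x - τ, G₀)) '' T, h2.union (h1.image _), ?_⟩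
    intro x y x' y' hp
    have e := h4 x y x' y' fun p hp' => hp p (Or.inl hp')
    have := hp _ (Or.inr ⟨_, h3 x y, rfl⟩)
    simp only at this
    rw [h5, h5, ← e]
    have e1 : ∀ a b c : ℝ, a - b - c = a - c - b := fun a b c => by ring
    rw [e1, this, e1]
  choose! P hP1 hP2 using h
  refine ⟨(⋃ j, ⋃ g ∈ E j, P j g) ∪
    (Set.image2 (fun (i : α) (r : ℤ) => ((fun x : α → ℤ => (((x i) % (N : ℤ) : ℤ) : ℝ)),
      (fun _ : β → ℤ => (r : ℝ)))) Set.univ (Set.Icc 0 (N : ℤ))) ∪
    (Set.image2 (fun (i : β) (r : ℤ) => ((fun _ : α → ℤ => (r : ℝ)),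
      (fun y : β → ℤ => (((y i) % (N : ℤ) : ℤ) : ℝ)))) Set.univ (Set.Icc 0 (N : ℤ))),
    ?_, ?_⟩
  · exact ((Set.finite_iUnion fun j => (hE1 j).biUnion fun g hg => hP1 j g hg).union
      (Set.finite_univ.image2 _ (Set.finite_Icc _ _))).union
      (Set.finite_univ.image2 _ (Set.finite_Icc _ _))
  · intro x y x' y' hp hxy
    have hNpos : (0 : ℤ) < N := by exact_mod_cast hN
    refine hE3 _ _ ⟨fun i => ?_, fun j g hg => ?_⟩ hxy
    · rcases i with i | i
      · have h1 := hp _ (Or.inl (Or.inr ⟨i, Set.mem_univ _, x i % N,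
          ⟨Int.emod_nonneg _ hNpos.ne', (Int.emod_lt_of_pos _ hNpos).le⟩, rfl⟩))
        simp only [sub_self, sign_zero] at h1
        have h2 := sub_eq_zero.1 (sign_eq_zero_iff.1 h1.symm)
        have h3 : x' i % (N : ℤ) = x i % N := by exact_mod_cast h2
        exact Int.modEq_iff_dvd.1 h3
      · have h1 := hp _ (Or.inr ⟨i, Set.mem_univ _, y i % N,
          ⟨Int.emod_nonneg _ hNpos.ne', (Int.emod_lt_of_pos _ hNpos).le⟩, rfl⟩)
        simp only [sub_self, sign_zero] at h1
        have h2 := sub_eq_zero.1 (sign_eq_zero_iff.1 h1.symm)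
        have h3 : y i % (N : ℤ) = y' i % N := by exact_mod_cast h2
        exact Int.modEq_iff_dvd.1 h3.symm
    · exact hP2 j g hg x y x' y' fun p hp' =>
        hp p (Or.inl (Or.inl (Set.mem_iUnion.2 ⟨j, Set.mem_iUnion₂.2 ⟨g, hg, hp'⟩⟩)))

/-! ### Transfer -/

/-- the sentence saying that some `K` tuples are shattered -/
noncomputable def shat {L : FirstOrder.Language.{0, 0}} {m n : ℕ}
    (φ : L.Formula (Fin m ⊕ Fin n)) (K : ℕ) : L.Sentence :=
  Formula.iExs (Fin K × Fin m) (Formula.iInf fun s : Set (Fin K) =>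
    Formula.iExs (Fin n) (Formula.iInf fun i : Fin K =>
      open Classical in
      if i ∈ s then φ.relabel (Sum.map (fun k => Sum.inr (i, k)) id)
      else (φ.relabel (Sum.map (fun k => Sum.inr (i, k)) id)).not))

theorem realize_shat {L : FirstOrder.Language.{0, 0}} {m n : ℕ} (φ : L.Formula (Fin m ⊕ Fin n))
    (K : ℕ) (M : Type*) [L.Structure M] : M ⊨ shat φ K ↔ ∃ a : Fin K → Fin m → M,
      ∀ s : Set (Fin K), ∃ y : Fin n → M, ∀ i, φ.Realize (Sum.elim (a i) y) ↔ i ∈ s := by
  classical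
  unfold shat Sentence.Realize
  rw [Formula.realize_iExs]
  constructor
  · rintro ⟨a, ha⟩
    refine ⟨fun i k => a (i, k), fun s => ?_⟩
    rw [Formula.realize_iInf] at ha
    have h1 := ha s
    rw [Formula.realize_iExs] at h1
    obtain ⟨y, hy⟩ := h1
    refine ⟨y, fun i => ?_⟩
    rw [Formula.realize_iInf] at hy
    have h2 := hy i
    have e : (Sum.elim (Sum.elim (default : Empty → M) a) y) ∘
        (Sum.map (fun k => Sum.inr (i, k)) id) = Sum.elim (fun k => a (i, k)) y := by
      funext t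
      rcases t with t | t <;> rfl
    by_cases his : i ∈ s
    · rw [if_pos his, Formula.realize_relabel, e] at h2
      exact iff_of_true h2 his
    · rw [if_neg his, Formula.realize_not, Formula.realize_relabel, e] at h2
      exact iff_of_false h2 his
  · rintro ⟨a, ha⟩
    refine ⟨fun p => a p.1 p.2, ?_⟩
    rw [Formula.realize_iInf]
    intro s
    obtain ⟨y, hy⟩ := ha s
    rw [Formula.realize_iExs]
    refine ⟨y, ?_⟩
    rw [Formula.realize_iInf]
    intro i
    have e : (Sum.elim (Sum.elim (default : Empty → M) fun p : Fin K × Fin m => a p.1 p.2) y) ∘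
        (Sum.map (fun k => Sum.inr (i, k)) id) = Sum.elim (a i) y := by
      funext t
      rcases t with t | t <;> rfl
    by_cases his : i ∈ s
    · rw [if_pos his, Formula.realize_relabel, e]
      exact (hy i).2 his
    · rw [if_neg his, Formula.realize_not, Formula.realize_relabel, e]
      exact fun h => his ((hy i).1 h)

/-- **the theory of the integers with tame relations is NIP** -/
theorem nip {J : Type} [Finite J] [Nonempty J] {θ : J → ℝ} (hθ : ∀ j, Irrational (θ j))
    (hd : Dense θ) {L : FirstOrder.Language.{0, 0}} [L.Structure ℤ]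
    (hf : ∀ n (f : L.Functions n), IsIntForm fun x : Fin n → ℤ => Structure.funMap f x)
    (hr : ∀ n (r : L.Relations n), Tame θ {x : Fin n → ℤ | Structure.RelMap r x})
    {M : Type*} [L.Structure M] (hM : M ⊨ L.completeTheory ℤ) {m n : ℕ}
    (φ : L.Formula (Fin m ⊕ Fin n)) (a : ℕ → Fin m → M) (b : Set ℕ → Fin n → M)
    (hab : ∀ (i : ℕ) (S : Set ℕ), φ.Realize (Sum.elim (a i) (b S)) ↔ i ∈ S) : False := by
  classical
  have hT := tame_formula hθ hd hf hr φ
  have hT2 : Tame θ {x : Fin m ⊕ Fin n → ℤ | φ.Realize x} := by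
    have := hT.reindex (κ := Fin m ⊕ Fin n) (Sum.elim id Fin.elim0)
    convert this using 1
    ext x
    show φ.Realize x ↔ BoundedFormula.Realize φ _ _
    apply iff_of_eq
    unfold Formula.Realize
    congr 1
    funext i
    exact i.elim0
  obtain ⟨K, hK⟩ := hT2.cmp.finite
  have hZ : ¬ ℤ ⊨ shat φ K := by
    rw [realize_shat]
    rintro ⟨a, ha⟩
    exact hK a ha
  have hM2 : M ⊨ shat φ K := by
    rw [realize_shat]
    refine ⟨fun i => a i, fun s => ⟨b ((fun i : Fin K => (i : ℕ)) '' s), fun i => ?_⟩⟩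
    rw [hab]
    constructor
    · rintro ⟨i', hi', h⟩
      have : i' = i := Fin.ext h
      exact this ▸ hi'
    · intro h
      exact ⟨i, h, rfl⟩
  have h1 : (shat φ K).not ∈ L.completeTheory ℤ := by
    rw [mem_completeTheory, Sentence.realize_not]
    exact hZ
  have h2 := Theory.realize_sentence_of_mem (M := M) _ h1
  rw [Sentence.realize_not] at h2
  exact h2 hM2

end Pool.Agent.R612.CO
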