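import Pool.Agent.R612.CO.Basic

/-!
Tame sets are closed under Boolean operations, substitutions and projections.
-/

set_option autoImplicit false

namespace Pool.Agent.R612.CO

open SignType

/-- the equivalence relation given by a modulus and by signs of functions -/
def Sim {J ι : Type} (N : ℕ) (E : J → Set ((ι → ℚ) → ℝ)) (x x' : ι → ℤ) : Prop :=
  (∀ i, (N : ℤ) ∣ x i - x' i) ∧
    ∀ j, ∀ g ∈ E j, sign (g fun i => (x i : ℚ)) = sign (g fun i => (x' i : ℚ))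

theorem Sim.symm {J ι : Type} {N : ℕ} {E : J → Set ((ι → ℚ) → ℝ)} {x x' : ι → ℤ}
    (h : Sim N E x x') : Sim N E x' x :=
  ⟨fun i => by rw [← neg_sub]; exact (dvd_neg).2 (h.1 i), fun j g hg => (h.2 j g hg).symm⟩

/-- tame sets -/
def Tame {J ι : Type} [Fintype ι] (θ : J → ℝ) (S : Set (ι → ℤ)) : Prop :=
  ∃ N : ℕ, 0 < N ∧ ∃ E : J → Set ((ι → ℚ) → ℝ), (∀ j, (E j).Finite) ∧
    (∀ j, ∀ g ∈ E j, g ∈ GG (θ j) ι) ∧ ∀ x x', Sim N E x x' → x ∈ S → x' ∈ S

section bool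

variable {J ι κ : Type} [Fintype ι] [Fintype κ] {θ : J → ℝ}

theorem Tame.compl {S : Set (ι → ℤ)} (h : Tame θ S) : Tame θ Sᶜ := by
  obtain ⟨N, hN, E, h1, h2, h3⟩ := h
  exact ⟨N, hN, E, h1, h2, fun x x' hs hx hx' => hx (h3 x' x hs.symm hx')⟩

theorem Tame.inter {S T : Set (ι → ℤ)} (h : Tame θ S) (h' : Tame θ T) : Tame θ (S ∩ T) := by
  obtain ⟨N, hN, E, h1, h2, h3⟩ := h
  obtain ⟨N', hN', E', h1', h2', h3'⟩ := h'
  refine ⟨N * N', Nat.mul_pos hN hN', fun j => E j ∪ E' j, fun j => (h1 j).union (h1' j), ?_, ?_⟩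
  · rintro j g (hg | hg)
    · exact h2 j g hg
    · exact h2' j g hg
  · rintro x x' hs ⟨hx, hx'⟩
    refine ⟨h3 x x' ⟨fun i => ?_, fun j g hg => hs.2 j g (Or.inl hg)⟩ hx,
      h3' x x' ⟨fun i => ?_, fun j g hg => hs.2 j g (Or.inr hg)⟩ hx'⟩
    · exact (Int.natCast_dvd_natCast.2 (Dvd.intro _ rfl)).trans (hs.1 i)
    · exact (Int.natCast_dvd_natCast.2 (Dvd.intro_left _ rfl)).trans (hs.1 i)

theorem Tame.union {S T : Set (ι → ℤ)} (h : Tame θ S) (h' : Tame θ T) : Tame θ (S ∪ T) := by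
  have := (h.compl.inter h'.compl).compl
  rwa [Set.compl_inter, compl_compl, compl_compl] at this

theorem tame_empty : Tame θ (∅ : Set (ι → ℤ)) :=
  ⟨1, one_pos, fun _ => ∅, fun _ => Set.finite_empty, by simp, by simp⟩

theorem tame_univ : Tame θ (Set.univ : Set (ι → ℤ)) :=
  ⟨1, one_pos, fun _ => ∅, fun _ => Set.finite_empty, by simp, by simp⟩

/-- integer affine maps -/
def IsIntForm (p : (κ → ℤ) → ℤ) : Prop :=
  ∃ (c : κ → ℤ) (c0 : ℤ), ∀ x, p x = ∑ i, c i * x i + c0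

theorem IsIntForm.toForm {p : (κ → ℤ) → ℤ} (hp : IsIntForm p) :
    ∃ q : (κ → ℚ) → ℚ, IsForm q ∧ ∀ x : κ → ℤ, q (fun i => (x i : ℚ)) = p x := by
  obtain ⟨c, c0, h⟩ := hp
  refine ⟨fun x => ∑ i, (c i : ℚ) * x i + c0, ⟨fun i => c i, c0, fun x => rfl⟩, fun x => ?_⟩
  rw [h]
  push_cast
  rfl

theorem IsIntForm.dvd {p : (κ → ℤ) → ℤ} (hp : IsIntForm p) {N : ℤ} {x x' : κ → ℤ}
    (h : ∀ i, N ∣ x i - x' i) : N ∣ p x - p x' := by
  obtain ⟨c, c0, hc⟩ := hp
  rw [hc, hc]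
  have : (∑ i, c i * x i + c0) - (∑ i, c i * x' i + c0) = ∑ i, c i * (x i - x' i) := by
    simp only [mul_sub, Finset.sum_sub_distrib]
    ring
  rw [this]
  exact Finset.dvd_sum fun i _ => Dvd.dvd.mul_left (h i) _

theorem Tame.preimage {S : Set (ι → ℤ)} (h : Tame θ S) {p : (κ → ℤ) → (ι → ℤ)}
    (hp : ∀ i, IsIntForm fun y => p y i) : Tame θ {y | p y ∈ S} := by
  obtain ⟨N, hN, E, h1, h2, h3⟩ := h
  choose q hq hqp using fun i => (hp i).toForm
  refine ⟨N, hN, fun j => (fun g => fun y => g fun i => q i y) '' E j, fun j => (h1 j).image _,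
    ?_, ?_⟩
  · rintro j _ ⟨g, hg, rfl⟩
    exact comp_mem (h2 j g hg) hq
  · rintro x x' hs hx
    refine h3 _ _ ⟨fun i => (hp i).dvd hs.1, fun j g hg => ?_⟩ hx
    have := hs.2 j _ ⟨g, hg, rfl⟩
    simpa only [hqp] using this

theorem isIntForm_var (i : κ) : IsIntForm fun x : κ → ℤ => x i := by
  classical
  exact ⟨fun k => if k = i then 1 else 0, 0, fun x => by simp⟩

theorem isIntForm_const (c : ℤ) : IsIntForm fun _ : κ → ℤ => c :=
  ⟨0, c, fun x => by simp⟩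

theorem IsIntForm.add {p q : (κ → ℤ) → ℤ} (hp : IsIntForm p) (hq : IsIntForm q) :
    IsIntForm fun x => p x + q x := by
  obtain ⟨c, c0, h⟩ := hp
  obtain ⟨d, d0, h'⟩ := hq
  refine ⟨c + d, c0 + d0, fun x => ?_⟩
  simp only [h, h', Pi.add_apply, add_mul, Finset.sum_add_distrib]
  ring

theorem IsIntForm.smul {p : (κ → ℤ) → ℤ} (hp : IsIntForm p) (a : ℤ) :
    IsIntForm fun x => a * p x := by
  obtain ⟨c, c0, h⟩ := hp
  refine ⟨fun i => a * c i, a * c0, fun x => ?_⟩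
  simp only [h, mul_add, Finset.mul_sum, mul_assoc]

theorem Tame.reindex {S : Set (ι → ℤ)} (h : Tame θ S) (e : ι → κ) :
    Tame θ {y : κ → ℤ | y ∘ e ∈ S} :=
  h.preimage (p := fun y => y ∘ e) fun i => isIntForm_var (e i)

end bool

/-- common multiples of finite families -/
theorem exists_common_multiple {X : Type} {s : Set X} (hs : s.Finite) (m : X → ℕ)
    (hm : ∀ x ∈ s, 0 < m x) : ∃ M : ℕ, 0 < M ∧ ∀ x ∈ s, m x ∣ M := by
  classical
  refine ⟨∏ x ∈ hs.toFinset, m x, Finset.prod_pos fun x hx => hm x (by simpa using hx),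
    fun x hx => Finset.dvd_prod_of_mem m (by simpa using hx)⟩

theorem sign_pair {k l c d c' d' : ℝ} (hk : k ≠ 0) (hl : l ≠ 0)
    (h : sign (l * c - k * d) = sign (l * c' - k * d')) :
    sign (-d / l - -c / k) = sign (-d' / l - -c' / k) := by
  have e : ∀ c d : ℝ, -d / l - -c / k = (l * c - k * d) * (k * l)⁻¹ := by
    intro c d
    field_simp
    ring
  rw [e, e, sign_mul, sign_mul, h]

/-- windows -/
theorem window {I : Type} (s : Finset I) (k c c' : I → ℝ)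
    (hs : ∀ a ∈ s, ∀ b ∈ s, sign (k b * c a - k a * c b) = sign (k b * c' a - k a * c' b))
    {i0 i1 : I} (h0 : i0 ∈ s) (h1 : i1 ∈ s) (hk0 : k i0 = 1) (hc0 : c i0 = 0) (hc0' : c' i0 = 0)
    (hk1 : k i1 = 1) (hc1 : c i1 = -1) (hc1' : c' i1 = -1) {ξ : ℝ} (hξ0 : 0 < ξ) (hξ1 : ξ < 1)
    (hne : ∀ a ∈ s, k a ≠ 0 → k a * ξ + c a ≠ 0) :
    ∃ p q : ℝ, 0 ≤ p ∧ p < q ∧ q ≤ 1 ∧ ∀ ξ', p < ξ' → ξ' < q → ∀ a ∈ s,
      sign (k a * ξ + c a) = sign (k a * ξ' + c' a) := by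
  classical
  have key : ∀ a ∈ s, ∀ b ∈ s, k a ≠ 0 → k b ≠ 0 →
      sign (-c b / k b - -c a / k a) = sign (-c' b / k b - -c' a / k a) :=
    fun a ha b hb hka hkb => sign_pair hka hkb (hs a ha b hb)
  have keylt : ∀ a ∈ s, ∀ b ∈ s, k a ≠ 0 → k b ≠ 0 → -c a / k a < -c b / k b →
      -c' a / k a < -c' b / k b := by
    intro a ha b hb hka hkb h
    have h2 := key a ha b hb hka hkb
    rw [sign_pos (sub_pos.2 h)] at h2
    exact sub_pos.1 (sign_eq_one_iff.1 h2.symm)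
  have keyle : ∀ a ∈ s, ∀ b ∈ s, k a ≠ 0 → k b ≠ 0 → -c a / k a ≤ -c b / k b →
      -c' a / k a ≤ -c' b / k b := by
    intro a ha b hb hka hkb h
    rcases h.lt_or_eq with h | h
    · exact (keylt a ha b hb hka hkb h).le
    · have h2 := key a ha b hb hka hkb
      rw [h, sub_self, sign_zero] at h2
      exact (sub_eq_zero.1 (sign_eq_zero_iff.1 h2.symm)).symm.le
  obtain ⟨a, ha, hamax⟩ := Finset.exists_max_image (s.filter fun a => k a ≠ 0 ∧ -c a / k a < ξ)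
    (fun a => -c a / k a) ⟨i0, by simp [h0, hk0, hc0, hξ0]⟩
  obtain ⟨b, hb, hbmin⟩ := Finset.exists_min_image (s.filter fun a => k a ≠ 0 ∧ ξ < -c a / k a)
    (fun a => -c a / k a) ⟨i1, by simp [h1, hk1, hc1, hξ1]⟩
  obtain ⟨ha1, ha2, ha3⟩ := by simpa using ha
  obtain ⟨hb1, hb2, hb3⟩ := by simpa using hb
  refine ⟨-c' a / k a, -c' b / k b, ?_, keylt a ha1 b hb1 ha2 hb2 (ha3.trans hb3), ?_, ?_⟩
  · have := keyle i0 h0 a ha1 (by rw [hk0]; exact one_ne_zero) ha2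
      (hamax i0 (by simp [h0, hk0, hc0, hξ0]))
    rwa [hk0, hc0', neg_zero, zero_div] at this
  · have := keyle b hb1 i1 h1 hb2 (by rw [hk1]; exact one_ne_zero)
      (hbmin i1 (by simp [h1, hk1, hc1, hξ1]))
    rwa [hk1, hc1', neg_neg, div_one] at this
  · intro ξ' hp hq d hd
    by_cases hkd : k d = 0
    · have := hs d hd i0 h0
      rw [hk0, hkd] at this
      rw [hkd]
      simpa using this
    · have e1 : k d * ξ + c d = k d * (ξ - -c d / k d) := by field_simp; ring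
      have e2 : k d * ξ' + c' d = k d * (ξ' - -c' d / k d) := by field_simp; ring
      rw [e1, e2, sign_mul, sign_mul]
      congr 1
      rcases lt_trichotomy (-c d / k d) ξ with h | h | h
      · rw [sign_pos (sub_pos.2 h), sign_pos]
        have := keyle d hd a ha1 hkd ha2 (hamax d (by simp [hd, hkd, h]))
        linarith
      · exfalso
        apply hne d hd hkd
        rw [e1, h, sub_self, mul_zero]
      · rw [sign_neg (sub_neg.2 h), sign_neg]
        have := keyle b hb1 d hd hb2 hkd (hbmin d (by simp [hd, hkd, h]))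
        linarith

/-- a threshold hit by `fract (z θ)` determines `z` as a form -/
theorem exists_hit {θ : ℝ} (hθ : Irrational θ) {ι : Type} [Fintype ι] {c : (ι → ℚ) → ℝ}
    (hc : c ∈ GG θ ι) (k : ℚ) : ∃ u : (ι → ℚ) → ℚ, IsForm u ∧ ∀ (z : ℤ) (y : ι → ℚ), k ≠ 0 →
      (k : ℝ) * Int.fract (z * θ) + c y = 0 → (z : ℚ) = u y := by
  obtain ⟨w, hw, h⟩ := exists_form hc
  refine ⟨fun y => -k⁻¹ * w y, hw.smul _, fun z y hk h0 => ?_⟩
  obtain ⟨q, hq⟩ := h y
  rw [hq, Int.fract] at h0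
  by_contra hne
  have h1 : k * z + w y ≠ 0 := by
    intro h2
    apply hne
    field_simp
    linarith
  have h2 : θ = (((k * ⌊(z : ℝ) * θ⌋ - q) / (k * z + w y) : ℚ) : ℝ) := by
    have h3 : ((k * z + w y : ℚ) : ℝ) ≠ 0 := by exact_mod_cast h1
    push_cast at h3 ⊢
    rw [eq_div_iff h3]
    linarith
  exact hθ ⟨_, h2.symm⟩

theorem cons_cast {ι : Type} (x : ℤ) (y : ι → ℤ) :
    (fun i => ((cons x y i : ℤ) : ℚ)) = cons (x : ℚ) (fun i => (y i : ℚ)) := by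
  funext i
  rcases i with _ | i <;> rfl

/-- the density hypothesis -/
def Dense {J : Type} (θ : J → ℝ) : Prop :=
  ∀ p q : J → ℝ, (∀ j, 0 ≤ p j ∧ p j < q j ∧ q j ≤ 1) →
    ∃ z : ℤ, ∀ j, p j < Int.fract (z * θ j) ∧ Int.fract (z * θ j) < q j

/-- **projections of tame sets are tame** -/
theorem Tame.exists {J : Type} [Finite J] {θ : J → ℝ} (hθ : ∀ j, Irrational (θ j))
    (hd : Dense θ) {ι : Type} [Fintype ι] {S : Set (Option ι → ℤ)} (hS : Tame θ S) :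
    Tame θ {y : ι → ℤ | ∃ x : ℤ, cons x y ∈ S} := by
  classical
  obtain ⟨N, hN, E, hE1, hE2, hE3⟩ := hS
  have hdec : ∀ j g, g ∈ E j → ∃ M₀ : ℕ, 0 < M₀ ∧ ∀ M : ℕ, M₀ ∣ M → ∀ r : ℤ,
      ∃ K c A T t, DecAt (θ j) g M r K c A T t := fun j g hg => exists_dec (hE2 j g hg)
  choose! M₀ hM₀ hdec using hdec
  obtain ⟨M₁, hM₁, hM₁'⟩ := exists_common_multiple
    (s := ⋃ j, (fun g => (j, g)) '' E j) (Set.finite_iUnion fun j => (hE1 j).image _)
    (fun x => M₀ x.1 x.2) (by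
      intro x hx
      obtain ⟨j, g, hg, rfl⟩ := Set.mem_iUnion.1 hx
      exact hM₀ j g hg)
  set M := N * M₁ with hM
  have hMpos : 0 < M := Nat.mul_pos hN hM₁
  have hdvd : ∀ j g, g ∈ E j → M₀ j g ∣ M := fun j g hg =>
    (hM₁' (j, g) (Set.mem_iUnion.2 ⟨j, g, hg, rfl⟩)).trans (Dvd.intro_left _ rfl)
  have hdec' : ∀ j g, g ∈ E j → ∀ r : ℤ, ∃ K c A T t, DecAt (θ j) g M r K c A T t :=
    fun j g hg r => hdec j g hg M (hdvd j g hg) r
  choose! K c A T t D using hdec'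
  -- the affine functions
  set AA : J → ℤ → Set (ℚ × ((ι → ℚ) → ℝ)) := fun j r =>
    {((1 : ℚ), fun _ => (0 : ℝ)), ((1 : ℚ), fun _ => (-1 : ℝ))} ∪
      ⋃ g ∈ E j, (A j g r ∪ (fun τ : ℚ => (K j g r, fun y => c j g r y - τ)) '' T j g r) with hAA
  have hAAfin : ∀ j r, (AA j r).Finite := fun j r =>
    (Set.toFinite _).union ((hE1 j).biUnion fun g hg =>
      (D j g hg r).A_fin.union ((D j g hg r).T_fin.image _))
  have hAAmem : ∀ j r, ∀ a ∈ AA j r, a.2 ∈ GG (θ j) ι := by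
    rintro j r a (ha | ha)
    · rcases ha with rfl | rfl
      · have := const_mem (θ := θ j) (ι := ι) 0
        simpa using this
      · have := const_mem (θ := θ j) (ι := ι) (-1)
        simpa using this
    · obtain ⟨g, hg, ha⟩ := Set.mem_iUnion₂.1 ha
      rcases ha with ha | ⟨τ, hτ, rfl⟩
      · exact (D j g hg r).A_mem a ha
      · exact (GG (θ j) ι).sub_mem (D j g hg r).c_mem (const_mem τ)
  -- the forms of the thresholds
  have hhit : ∀ j r, ∀ a, a ∈ AA j r → ∃ u : (ι → ℚ) → ℚ, IsForm u ∧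
      ∀ (z : ℤ) (y : ι → ℚ), a.1 ≠ 0 →
        (a.1 : ℝ) * Int.fract (z * θ j) + a.2 y = 0 → (z : ℚ) = u y :=
    fun j r a ha => exists_hit (hθ j) (hAAmem j r a ha) a.1
  choose! u hu1 hu2 using hhit
  have hmod : ∀ j r, ∀ a, a ∈ AA j r → ∃ m : ℕ, 0 < m ∧ ∀ x x' : ι → ℤ,
      (∀ i, (m : ℤ) ∣ x i - x' i) →
        ∃ z : ℤ, u j r a (fun i => (x i : ℚ)) - u j r a (fun i => (x' i : ℚ)) = z :=
    fun j r a ha => (hu1 j r a ha).exists_modulus
  choose! m hm1 hm2 using hmod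
  -- the index set of all thresholds
  set X : Set (J × ℤ × (ℚ × ((ι → ℚ) → ℝ))) :=
    ⋃ j, ⋃ r ∈ Set.Icc (0 : ℤ) M, (fun a => (j, r, a)) '' AA j r with hX
  have hXfin : X.Finite := Set.finite_iUnion fun j => (Set.finite_Icc _ _).biUnion fun r _ =>
    (hAAfin j r).image _
  have hXmem : ∀ j (r : ℤ), 0 ≤ r → r ≤ M → ∀ a ∈ AA j r, (j, r, a) ∈ X := by
    intro j r h0 h1 a ha
    exact Set.mem_iUnion.2 ⟨j, Set.mem_iUnion₂.2 ⟨r, ⟨h0, h1⟩, a, ha, rfl⟩⟩
  have hXmem' : ∀ x ∈ X, x.2.2 ∈ AA x.1 x.2.1 := by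
    intro x hx
    obtain ⟨j, hx⟩ := Set.mem_iUnion.1 hx
    obtain ⟨r, _, a, ha, rfl⟩ := Set.mem_iUnion₂.1 hx
    exact ha
  obtain ⟨N₁, hN₁, hN₁'⟩ := exists_common_multiple hXfin (fun x => m x.1 x.2.1 x.2.2)
    fun x hx => hm1 _ _ _ (hXmem' x hx)
  refine ⟨N * N₁, Nat.mul_pos hN hN₁, fun j =>
    (⋃ r ∈ Set.Icc (0 : ℤ) M, Set.image2
      (fun a b : ℚ × ((ι → ℚ) → ℝ) => fun y => (b.1 : ℝ) * a.2 y - (a.1 : ℝ) * b.2 y)
        (AA j r) (AA j r)) ∪
    Set.image2 (fun (x : J × ℤ × (ℚ × ((ι → ℚ) → ℝ))) (g : (Option ι → ℚ) → ℝ) =>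
      fun y => g (cons ((M : ℚ) * u x.1 x.2.1 x.2.2 y + x.2.1) y)) X (E j), ?_, ?_, ?_⟩
  · intro j
    exact ((Set.finite_Icc _ _).biUnion fun r _ => (hAAfin j r).image2 _ (hAAfin j r)).union
      (hXfin.image2 _ (hE1 j))
  · rintro j g (hg | ⟨x, hx, g, hg, rfl⟩)
    · obtain ⟨r, _, a, ha, b, hb, rfl⟩ := Set.mem_iUnion₂.1 hg
      exact (GG (θ j) ι).sub_mem ((GG (θ j) ι).smul_mem b.1 (hAAmem j r a ha))
        ((GG (θ j) ι).smul_mem a.1 (hAAmem j r b hb))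
    · refine comp_mem (hE2 j g hg) fun i => ?_
      rcases i with _ | i
      · exact ((hu1 _ _ _ (hXmem' x hx)).smul _).add (isForm_const _)
      · exact isForm_var i
  · rintro y y' ⟨hs1, hs2⟩ ⟨x, hx⟩
    have hNd : ∀ i, (N : ℤ) ∣ y i - y' i := fun i =>
      (Int.natCast_dvd_natCast.2 (Dvd.intro _ rfl)).trans (hs1 i)
    have hN₁d : ∀ i, (N₁ : ℤ) ∣ y i - y' i := fun i =>
      (Int.natCast_dvd_natCast.2 (Dvd.intro_left _ rfl)).trans (hs1 i)
    -- the quotient and the remainder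
    obtain ⟨z, r, hr0, hr1, rfl⟩ : ∃ z r : ℤ, 0 ≤ r ∧ r ≤ M ∧ x = M * z + r :=
      ⟨x / M, x % M, Int.emod_nonneg _ (by exact_mod_cast hMpos.ne'),
        (Int.emod_lt_of_pos _ (by exact_mod_cast hMpos)).le, (Int.mul_ediv_add_emod x M).symm⟩
    -- it suffices to find `z'` with equal signs
    suffices h : ∃ z' : ℤ, ∀ j, ∀ g ∈ E j,
        sign (g (cons ((M : ℚ) * z + r) fun i => (y i : ℚ))) =
          sign (g (cons ((M : ℚ) * z' + r) fun i => (y' i : ℚ))) by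
      obtain ⟨z', hz'⟩ := h
      refine ⟨M * z' + r, hE3 _ _ ⟨fun i => ?_, fun j g hg => ?_⟩ hx⟩
      · rcases i with _ | i
        · show (N : ℤ) ∣ (M * z + r) - (M * z' + r)
          have : ((M : ℤ) * z + r) - (M * z' + r) = N * (M₁ * (z - z')) := by
            rw [hM]
            push_cast
            ring
          rw [this]
          exact Dvd.intro _ rfl
        · exact hNd i
      · rw [cons_cast, cons_cast]
        have := hz' j g hg
        push_cast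
        exact this
    by_cases hA : ∃ j, ∃ a ∈ AA j r, a.1 ≠ 0 ∧
        (a.1 : ℝ) * Int.fract (z * θ j) + a.2 (fun i => (y i : ℚ)) = 0
    · obtain ⟨j, a, ha, ha1, ha2⟩ := hA
      have hz : (z : ℚ) = u j r a fun i => (y i : ℚ) := hu2 j r a ha z _ ha1 ha2
      have hx' := hXmem j r hr0 hr1 a ha
      obtain ⟨d, hd'⟩ := hm2 j r a ha y y' fun i =>
        (Int.natCast_dvd_natCast.2 (hN₁' _ hx')).trans (hN₁d i)
      have hz' : ((z - d : ℤ) : ℚ) = u j r a fun i => (y' i : ℚ) := by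
        push_cast
        rw [hz, ← hd']
        ring
      refine ⟨z - d, fun j' g hg => ?_⟩
      have := hs2 j' _ (Or.inr ⟨_, hx', g, hg, rfl⟩)
      simp only at this
      rw [hz', hz]
      exact this
    · push Not at hA
      -- windows
      have hwin : ∀ j, ∃ p q : ℝ, 0 ≤ p ∧ p < q ∧ q ≤ 1 ∧ ∀ ξ', p < ξ' → ξ' < q →
          ∀ a ∈ AA j r, sign ((a.1 : ℝ) * Int.fract (z * θ j) + a.2 (fun i => (y i : ℚ))) =
            sign ((a.1 : ℝ) * ξ' + a.2 (fun i => (y' i : ℚ))) := by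
        intro j
        have h0 : ((1 : ℚ), fun _ : ι → ℚ => (0 : ℝ)) ∈ AA j r := Or.inl (Or.inl rfl)
        have h1 : ((1 : ℚ), fun _ : ι → ℚ => (-1 : ℝ)) ∈ AA j r := Or.inl (Or.inr rfl)
        obtain ⟨p, q, hp, hpq, hq, hw⟩ := window (hAAfin j r).toFinset (fun a => (a.1 : ℝ))
          (fun a => a.2 fun i => (y i : ℚ)) (fun a => a.2 fun i => (y' i : ℚ))
          (fun a ha b hb => by
            rw [Set.Finite.mem_toFinset] at ha hb
            exact hs2 j _ (Or.inl (Set.mem_iUnion₂.2 ⟨r, ⟨hr0, hr1⟩, a, ha, b, hb, rfl⟩)))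
          (i0 := ((1 : ℚ), fun _ : ι → ℚ => (0 : ℝ))) (i1 := ((1 : ℚ), fun _ : ι → ℚ => (-1 : ℝ)))
          (by simpa using h0) (by simpa using h1) (by simp) rfl rfl (by simp) rfl rfl
          (ξ := Int.fract (z * θ j))
          (by
            refine lt_of_le_of_ne (Int.fract_nonneg _) fun h => ?_
            refine hA j _ h0 one_ne_zero ?_
            simp [← h])
          (Int.fract_lt_one _)
          (fun a ha h => by
            rw [Set.Finite.mem_toFinset] at ha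
            exact hA j a ha (by exact_mod_cast h))
        exact ⟨p, q, hp, hpq, hq, fun ξ' h h' a ha => hw ξ' h h' a (by simpa using ha)⟩
      choose p q hp hpq hq hw using hwin
      obtain ⟨z', hz'⟩ := hd p q fun j => ⟨hp j, hpq j, hq j⟩
      refine ⟨z', fun j g hg => ?_⟩
      have hDj := D j g hg r
      have hwj := hw j _ (hz' j).1 (hz' j).2
      have ht : t j g r (Int.fract (z * θ j)) (fun i => (y i : ℚ)) =
          t j g r (Int.fract (z' * θ j)) (fun i => (y' i : ℚ)) :=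
        hDj.t_eq _ _ (Int.fract_nonneg _) (Int.fract_lt_one _) (Int.fract_nonneg _)
          (Int.fract_lt_one _) _ _ fun a ha =>
            hwj a (Or.inr (Set.mem_iUnion₂.2 ⟨g, hg, Or.inl ha⟩))
      have htm := hDj.t_mem (Int.fract (z * θ j)) (Int.fract_nonneg _) (Int.fract_lt_one _)
        (fun i => (y i : ℚ))
      have := hwj _ (Or.inr (Set.mem_iUnion₂.2 ⟨g, hg, Or.inr ⟨_, htm, rfl⟩⟩))
      simp only at this
      rw [hDj.eq, hDj.eq, ← ht]
      simpa only [add_sub_assoc] using this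

end Pool.Agent.R612.CO
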